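import Pool.Agent.Helper76_ATT.NumB

/-!
# Helper76, tank ATT: the numbers, part 3: the rows of the cluster, the first kills, the start
-/

set_option autoImplicit false

open scoped BigOperators NNReal

noncomputable section

namespace Pool.Agent.ATT.H76

open Pool.Agent.ANP (Cfg)

variable {X : Type} [Fintype X] [DecidableEq X]

/-- what is needed at the start of an attempt, without the rows of the cluster -/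
structure In0 (Hm : Matrix X X ℝ) (e0 : ℝ) (T₀ : Cfg X) (R Q : Finset X) (v : ℝ≥0)
    (q g₀ g₁ gb : ℝ) : Prop where
  q0 : 0 < q
  vq : (v : ℝ) = q ^ 2000
  sym : ∀ x y, Hm x y = Hm y x
  eq : 0 < e0 ∧ e0 ≤ q ^ 2000
  pimb : ∀ x, 0 < T₀.s x → 0 < (T₀.mb x).im
  dis : Disjoint R Q
  hR : ∀ x ∈ R, T₀.s x = v ∧ g₀ ≤ (T₀.mb x).im ∧ (T₀.mb x).im ≤ g₁
  hQ : ∀ b ∈ Q, T₀.s b ≠ 0 ∧ ka e0 e0 T₀ b ≤ 1 ∧ ‖GT Hm e0 e0 T₀ b b‖ ≤ gb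
  cQ : (Q.card : ℝ) ≤ (q⁻¹) ^ 2
  dia : ∀ c ∈ R, ‖GT Hm e0 e0 T₀ c c - T₀.mb c‖ ≤ q ^ 198 / 2
  ent : ∀ x ∈ R, ∀ y ∈ R, ‖GT Hm e0 e0 T₀ x y‖ ≤ gb / 2
  lam : ∀ x ∈ R, ∑ y ∈ R, ‖GT Hm e0 e0 T₀ x y‖ ^ 4 ≤ (q⁻¹) ^ 1500

section

variable {Hm : Matrix X X ℝ} {e0 : ℝ} {T₀ : Cfg X} {R Rk Q : Finset X} {v : ℝ≥0} {val : X → ℝ}
  {q g₀ g₁ gb : ℝ}

lemma ka_pos' (h : In0 Hm e0 T₀ R Q v q g₀ g₁ gb) (x : X) : 0 < ka e0 e0 T₀ x := by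
  unfold ka
  split_ifs with hs
  · exact h.eq.1
  · have h1 : 0 < T₀.s x := pos_iff_ne_zero.2 hs
    have h2 := h.pimb x h1
    have h3 := h.eq.1
    have h4 : (0 : ℝ) ≤ T₀.s x := NNReal.coe_nonneg _
    positivity

/-- the rows of the cluster in `ℓ²(R)` -/
lemma row2 (hnet : NetStmt) (h : In0 Hm e0 T₀ R Q v q g₀ g₁ gb) (hg₀ : 0 < g₀) (b : X)
    (hb : b ∈ Q) : ∑ y ∈ R, ‖GT Hm e0 e0 T₀ b y‖ ^ 2 ≤ gb / g₀ * (q⁻¹) ^ 2000 := by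
  obtain ⟨-, hsym, hward, -⟩ := hnet X Hm e0 e0 T₀ h.sym h.eq.1 le_rfl h.pimb
  have hq := h.q0
  have hv : (0 : ℝ) < v := by rw [h.vq]; positivity
  have hk : ∀ y ∈ R, (v : ℝ) * g₀ ≤ ka e0 e0 T₀ y := by
    intro y hy
    obtain ⟨h1, h2, h3⟩ := h.hR y hy
    unfold ka
    rw [if_neg (by rw [h1]; exact fun h0 => by rw [h0] at hv; simp at hv), h1]
    have := h.eq.1
    nlinarith [mul_le_mul_of_nonneg_left h2 hv.le]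
  have h1 : (v : ℝ) * g₀ * ∑ y ∈ R, ‖GT Hm e0 e0 T₀ b y‖ ^ 2 ≤ gb := by
    calc (v : ℝ) * g₀ * ∑ y ∈ R, ‖GT Hm e0 e0 T₀ b y‖ ^ 2
        = ∑ y ∈ R, (v : ℝ) * g₀ * ‖GT Hm e0 e0 T₀ y b‖ ^ 2 := by
          rw [Finset.mul_sum]
          exact Finset.sum_congr rfl fun y _ => by rw [hsym b y]
      _ ≤ ∑ y ∈ R, ka e0 e0 T₀ y * ‖GT Hm e0 e0 T₀ y b‖ ^ 2 :=
          Finset.sum_le_sum fun y hy => mul_le_mul_of_nonneg_right (hk y hy) (by positivity)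
      _ ≤ ∑ y, ka e0 e0 T₀ y * ‖GT Hm e0 e0 T₀ y b‖ ^ 2 :=
          Finset.sum_le_sum_of_subset_of_nonneg (Finset.subset_univ _) fun y _ _ => by
            have := ka_pos' h y
            positivity
      _ = (GT Hm e0 e0 T₀ b b).im := hward b
      _ ≤ ‖GT Hm e0 e0 T₀ b b‖ := le_trans (le_abs_self _) (Complex.abs_im_le_norm _)
      _ ≤ gb := (h.hQ b hb).2.2
  rw [h.vq] at h1
  have h2 : 0 < q ^ 2000 * g₀ := by positivity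
  calc ∑ y ∈ R, ‖GT Hm e0 e0 T₀ b y‖ ^ 2 ≤ gb / (q ^ 2000 * g₀) := by
        rw [le_div_iff₀ h2]; linarith
    _ = gb / g₀ * (q⁻¹) ^ 2000 := by
        rw [inv_pow]; field_simp

/-- the structure `In` -/
lemma toIn (hnet : NetStmt) (h : In0 Hm e0 T₀ R Q v q g₀ g₁ gb) (hg₀ : 0 < g₀)
    (hgb : 0 ≤ gb) : In Hm e0 T₀ R Q v q g₀ g₁ gb := by
  refine ⟨h.q0, h.vq, h.sym, h.eq, h.pimb, h.dis, h.hR, fun b hb => ⟨(h.hQ b hb).1,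
    (h.hQ b hb).2.1⟩, h.cQ, h.dia, h.ent, h.lam, ?_⟩
  intro b hb
  obtain ⟨-, hsym, hward, -⟩ := hnet X Hm e0 e0 T₀ h.sym h.eq.1 le_rfl h.pimb
  have hk := ka_pos' h b
  have hq := h.q0
  have h1 : ∀ y ∈ R, ‖GT Hm e0 e0 T₀ b y‖ ^ 2 ≤ gb / ka e0 e0 T₀ b := by
    intro y hy
    rw [le_div_iff₀ hk]
    calc ‖GT Hm e0 e0 T₀ b y‖ ^ 2 * ka e0 e0 T₀ b = ka e0 e0 T₀ b * ‖GT Hm e0 e0 T₀ b y‖ ^ 2 := by
          ring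
      _ ≤ ∑ z, ka e0 e0 T₀ z * ‖GT Hm e0 e0 T₀ z y‖ ^ 2 :=
          Finset.single_le_sum (f := fun z => ka e0 e0 T₀ z * ‖GT Hm e0 e0 T₀ z y‖ ^ 2)
            (fun z _ => by
              have := ka_pos' h z
              positivity) (Finset.mem_univ b)
      _ = (GT Hm e0 e0 T₀ y y).im := hward y
      _ ≤ ‖GT Hm e0 e0 T₀ y y‖ := le_trans (le_abs_self _) (Complex.abs_im_le_norm _)
      _ ≤ gb / 2 := h.ent y hy y hy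
      _ ≤ gb := by linarith
  calc ∑ y ∈ R, ‖GT Hm e0 e0 T₀ b y‖ ^ 4
      = ∑ y ∈ R, ‖GT Hm e0 e0 T₀ b y‖ ^ 2 * ‖GT Hm e0 e0 T₀ b y‖ ^ 2 :=
        Finset.sum_congr rfl fun y _ => by ring
    _ ≤ ∑ y ∈ R, gb / ka e0 e0 T₀ b * ‖GT Hm e0 e0 T₀ b y‖ ^ 2 :=
        Finset.sum_le_sum fun y hy => mul_le_mul_of_nonneg_right (h1 y hy) (by positivity)
    _ = gb / ka e0 e0 T₀ b * ∑ y ∈ R, ‖GT Hm e0 e0 T₀ b y‖ ^ 2 := by rw [Finset.mul_sum]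
    _ ≤ gb / ka e0 e0 T₀ b * (gb / g₀ * (q⁻¹) ^ 2000) :=
        mul_le_mul_of_nonneg_left (row2 hnet h hg₀ b hb) (by positivity)
    _ = _ := by ring

/-- the number of the first kills -/
lemma card0 (hnet : NetStmt) (h : In0 Hm e0 T₀ R Q v q g₀ g₁ gb) (hg₀ : 0 < g₀) (hgb : 0 ≤ gb)
    (hK : ℝ) (hhK : hK = q ^ 200) :
    (({x ∈ R | ∃ b ∈ Q, hK < ka e0 e0 T₀ b * ‖GT Hm e0 e0 T₀ b x‖ ^ 2} : Finset X).card : ℝ) ≤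
      gb / g₀ * (q⁻¹) ^ 2202 := by
  classical
  have hq := h.q0
  have hK0 : 0 < hK := by rw [hhK]; positivity
  have h1 : (({x ∈ R | ∃ b ∈ Q, hK < ka e0 e0 T₀ b * ‖GT Hm e0 e0 T₀ b x‖ ^ 2} :
      Finset X).card : ℝ) * hK ≤ ∑ b ∈ Q, ∑ x ∈ R, ka e0 e0 T₀ b * ‖GT Hm e0 e0 T₀ b x‖ ^ 2 := by
    rw [Finset.sum_comm]
    rw [← nsmul_eq_mul, ← Finset.sum_const]
    refine le_trans (Finset.sum_le_sum (g := fun x => ∑ b ∈ Q,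
      ka e0 e0 T₀ b * ‖GT Hm e0 e0 T₀ b x‖ ^ 2) ?_) ?_
    · intro x hx
      obtain ⟨-, b, hb, h2⟩ := Finset.mem_filter.1 hx
      refine h2.le.trans (Finset.single_le_sum (f := fun b => ka e0 e0 T₀ b *
        ‖GT Hm e0 e0 T₀ b x‖ ^ 2) (fun z _ => by
          have := ka_pos' h z
          positivity) hb)
    · refine Finset.sum_le_sum_of_subset_of_nonneg (Finset.filter_subset _ _) fun x _ _ => ?_
      exact Finset.sum_nonneg fun z _ => by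
        have := ka_pos' h z
        positivity
  have h2 : ∑ b ∈ Q, ∑ x ∈ R, ka e0 e0 T₀ b * ‖GT Hm e0 e0 T₀ b x‖ ^ 2 ≤
      (q⁻¹) ^ 2 * (gb / g₀ * (q⁻¹) ^ 2000) := by
    calc ∑ b ∈ Q, ∑ x ∈ R, ka e0 e0 T₀ b * ‖GT Hm e0 e0 T₀ b x‖ ^ 2
        ≤ ∑ _b ∈ Q, gb / g₀ * (q⁻¹) ^ 2000 := by
          refine Finset.sum_le_sum fun b hb => ?_
          rw [← Finset.mul_sum]
          have h3 := row2 hnet h hg₀ b hb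
          have h4 := (h.hQ b hb).2.1
          have h5 : 0 ≤ ∑ y ∈ R, ‖GT Hm e0 e0 T₀ b y‖ ^ 2 :=
            Finset.sum_nonneg fun y _ => by positivity
          nlinarith [mul_le_mul_of_nonneg_right h4 h5]
      _ = (Q.card : ℝ) * (gb / g₀ * (q⁻¹) ^ 2000) := by
          rw [Finset.sum_const, nsmul_eq_mul]
      _ ≤ _ := mul_le_mul_of_nonneg_right h.cQ (by positivity)
  have h3 : (({x ∈ R | ∃ b ∈ Q, hK < ka e0 e0 T₀ b * ‖GT Hm e0 e0 T₀ b x‖ ^ 2} :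
      Finset X).card : ℝ) ≤ (q⁻¹) ^ 2 * (gb / g₀ * (q⁻¹) ^ 2000) / hK := by
    rw [le_div_iff₀ hK0]
    exact h1.trans h2
  refine h3.trans (le_of_eq ?_)
  rw [hhK, div_eq_mul_inv, ← inv_pow]
  ring

/-- the functional at the start -/
lemma start (h : In Hm e0 T₀ R Q v q g₀ g₁ gb) (h1 : q ≤ 1) (D : ℕ)
    (hc : (R.card : ℝ) ≤ (q⁻¹) ^ D) (hD : 2 ≤ D) :
    (∑ x ∈ R ∪ Q, (R.card : ℝ) * (4 * Real.exp (1 - (mkA Hm e0 T₀ R Rk Q v val q g₀ gb).l x *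
      (mkA Hm e0 T₀ R Rk Q v val q g₀ gb).ε x))) +
      R.card * Real.exp (1 - (q⁻¹) ^ 82 * q ^ 80) + Real.exp (1 - q ^ 278 * (q⁻¹) ^ 280) ≤
      30 * (q⁻¹) ^ (2 * D) * Real.exp (-(q⁻¹) ^ 2) := by
  have hq := h.q0
  have hr : 0 < q⁻¹ := inv_pos.2 hq
  have hr1 : 1 ≤ q⁻¹ := (one_le_inv₀ hq).2 h1
  have e1 : ∀ x, (mkA Hm e0 T₀ R Rk Q v val q g₀ gb).l x *
      (mkA Hm e0 T₀ R Rk Q v val q g₀ gb).ε x = (q⁻¹) ^ 2 := by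
    intro x
    show 4 * (q⁻¹) ^ 2 / Jn (ka e0 e0 T₀) Q q x * (Jn (ka e0 e0 T₀) Q q x / 4) = _
    have := (Jn_pos h x).ne'
    field_simp
  have e2 : (q⁻¹) ^ 82 * q ^ 80 = (q⁻¹) ^ 2 := rq hq 2 80
  have e3 : q ^ 278 * (q⁻¹) ^ 280 = (q⁻¹) ^ 2 := by
    rw [mul_comm]; exact rq hq 2 278
  have e4 : Real.exp (1 - (q⁻¹) ^ 2) ≤ 3 * Real.exp (-(q⁻¹) ^ 2) := by
    rw [sub_eq_add_neg, Real.exp_add]
    have := Real.exp_one_lt_d9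
    have h2 := Real.exp_pos (-(q⁻¹) ^ 2)
    nlinarith
  rw [Finset.sum_congr rfl (g := fun _ => (R.card : ℝ) * (4 * Real.exp (1 - (q⁻¹) ^ 2)))
    (fun x _ => by rw [e1])]
  rw [Finset.sum_const, nsmul_eq_mul, e2, e3]
  have h3 : ((R ∪ Q).card : ℝ) ≤ 2 * (q⁻¹) ^ D := by
    have h4 : ((R ∪ Q).card : ℝ) ≤ R.card + Q.card := by exact_mod_cast Finset.card_union_le R Q
    have h5 : (q⁻¹) ^ 2 ≤ (q⁻¹) ^ D := pow_le_pow_right₀ hr1 hD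
    have h6 := h.cQ
    linarith
  have h7 : (1 : ℝ) ≤ (q⁻¹) ^ D := one_le_pow₀ hr1
  have h8 : (q⁻¹) ^ D ≤ (q⁻¹) ^ (2 * D) := pow_le_pow_right₀ hr1 (by omega)
  have h9 : 0 < Real.exp (1 - (q⁻¹) ^ 2) := Real.exp_pos _
  have hR0 : (0 : ℝ) ≤ R.card := Nat.cast_nonneg _
  calc ((R ∪ Q).card : ℝ) * (R.card * (4 * Real.exp (1 - (q⁻¹) ^ 2))) +
        R.card * Real.exp (1 - (q⁻¹) ^ 2) + Real.exp (1 - (q⁻¹) ^ 2)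
      ≤ (2 * (q⁻¹) ^ D) * ((q⁻¹) ^ D * (4 * Real.exp (1 - (q⁻¹) ^ 2))) +
        (q⁻¹) ^ D * Real.exp (1 - (q⁻¹) ^ 2) + (q⁻¹) ^ D * Real.exp (1 - (q⁻¹) ^ 2) := by
        have hA : ((R ∪ Q).card : ℝ) * (R.card * (4 * Real.exp (1 - (q⁻¹) ^ 2))) ≤
            (2 * (q⁻¹) ^ D) * ((q⁻¹) ^ D * (4 * Real.exp (1 - (q⁻¹) ^ 2))) := by gcongr
        have hB : (R.card : ℝ) * Real.exp (1 - (q⁻¹) ^ 2) ≤
            (q⁻¹) ^ D * Real.exp (1 - (q⁻¹) ^ 2) := by gcongr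
        have hC : 1 * Real.exp (1 - (q⁻¹) ^ 2) ≤ (q⁻¹) ^ D * Real.exp (1 - (q⁻¹) ^ 2) := by
          gcongr
        linarith
    _ = (8 * (q⁻¹) ^ (2 * D) + 2 * (q⁻¹) ^ D) * Real.exp (1 - (q⁻¹) ^ 2) := by ring
    _ ≤ (10 * (q⁻¹) ^ (2 * D)) * (3 * Real.exp (-(q⁻¹) ^ 2)) := by
        gcongr
        linarith
    _ = _ := by ring

end

end Pool.Agent.ATT.H76
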