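import Pool.Agent.Helper76_ATT.NumC

/-!
# Helper76, tank ATT: the end of an attempt in numbers
-/

set_option autoImplicit false

open scoped BigOperators NNReal

noncomputable section

namespace Pool.Agent.ATT.H76

open Pool.Agent.ANP (Cfg)

variable {X : Type} [Fintype X] [DecidableEq X]
  {Hm : Matrix X X ℝ} {e0 : ℝ} {T₀ : Cfg X} {R Rk Q : Finset X} {v : ℝ≥0} {val : X → ℝ}
  {q g₀ g₁ gb : ℝ}

omit [Fintype X] [DecidableEq X] in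
theorem mx_nonneg' (κ : X → ℝ) (S : Finset X) (G Go : Matrix X X ℂ) (x : X)
    (h : ∀ y ∈ S, 0 ≤ κ y) : 0 ≤ mx κ S G Go x := by
  unfold mx
  exact Finset.sum_nonneg fun y hy => mul_nonneg (h y hy) (by positivity)

/-- THE END OF AN ATTEMPT -/
theorem out_num (hOut : OutStmt) (h : In Hm e0 T₀ R Q v q g₀ g₁ gb) (K : ℝ) (hK : K * q ≤ 1)
    (hK1 : 2000 ≤ K) (hK2 : 100 / g₀ ≤ K) (hg₀ : 0 < g₀)
    (κs Λ Lc hk kI : ℝ) (hH : (mkA Hm e0 T₀ R Rk Q v val q g₀ gb).Hyp κs g₀ Λ Lc hk kI)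
    (T' : Cfg X) (Go : Matrix X X ℂ)
    (hSt : (mkA Hm e0 T₀ R Rk Q v val q g₀ gb).St T' ∅ Go)
    (hU : (mkA Hm e0 T₀ R Rk Q v val q g₀ gb).U T' ∅ Go < 1) :
    (∀ x ∈ R, T'.s x ≠ 0 → ∀ y ∈ R, T'.s y ≠ 0 →
      ‖GT Hm e0 e0 T' x y - GT Hm e0 e0 T₀ x y‖ ≤ q ^ 244) ∧
    (∀ x ∈ R, T'.s x ≠ 0 → mx (ka e0 e0 T') {y ∈ R | T'.s y ≠ 0} (GT Hm e0 e0 T')
      (GT Hm e0 e0 T₀) x ≤ 4 * q ^ 80) ∧
    MM (ka e0 e0 T') {y ∈ R | T'.s y ≠ 0} (GT Hm e0 e0 T') (GT Hm e0 e0 T₀) ≤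
      9 * (q⁻¹) ^ 280 ∧
    (({x ∈ R | T'.s x = 0} : Finset X).card : ℝ) ≤ (q⁻¹) ^ 2260 := by
  have hq := h.q0
  have hq1 : q ≤ 1 := by nlinarith
  have hr : 0 < q⁻¹ := inv_pos.2 hq
  have hr1 : 1 ≤ q⁻¹ := (one_le_inv₀ hq).2 hq1
  obtain ⟨o1, o2, o3⟩ := hOut X _ κs g₀ Λ Lc hk kI hH T' Go hSt hU
  have hmem : ∀ x, x ∈ R → T'.s x ≠ 0 → x ∈ (mkA Hm e0 T₀ R Rk Q v val q g₀ gb).al T' := by
    intro x hx hs
    exact Finset.mem_filter.2 ⟨hx, hs⟩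
  have hJ : ∀ x ∈ R, (mkA Hm e0 T₀ R Rk Q v val q g₀ gb).J x = q ^ 244 := fun x hx => Jn_R h x hx
  have hka : ∀ y, 0 ≤ ka e0 e0 T' y := by
    intro y
    unfold ka
    split_ifs with hs
    · exact h.eq.1.le
    · have h2 : 0 ≤ (T'.mb y).im := by
        rw [hSt.mb]
        show 0 ≤ (T₀.mb y).im
        by_cases hyR : y ∈ R
        · exact hg₀.le.trans (h.hR y hyR).2.1
        · by_cases hyQ : y ∈ Q
          · exact (h.pimb y (pos_iff_ne_zero.2 (h.hQ y hyQ).1)).le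
          · have h3 := (hSt.off y hyR hyQ).2
            refine (h.pimb y ?_).le
            have h4 : T'.s y = T₀.s y := h3
            rw [← h4]
            exact pos_iff_ne_zero.2 hs
      have h3 := h.eq.1
      have h4 : (0 : ℝ) ≤ T'.s y := NNReal.coe_nonneg _
      positivity
  have hsd : Real.sqrt (2 / g₀ * q ^ 250) ≤ q ^ 121 / 4 := by
    have h1 := small hq hq1 hK (c := 100 / g₀) (by positivity) hK2 8 (by norm_num)
    rw [Real.sqrt_le_left (by positivity)]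
    calc 2 / g₀ * q ^ 250 = (100 / g₀ * q ^ 8) * (q ^ 242 / 50) := by ring
      _ ≤ 1 * (q ^ 242 / 50) := by gcongr
      _ ≤ _ := by
          have : 0 ≤ q ^ 242 := by positivity
          have e : (q ^ 121 / 4) ^ 2 = q ^ 242 / 16 := by ring
          rw [e]; linarith
  have hcQ : (Q.card : ℝ) ≤ (q⁻¹) ^ 2 := h.cQ
  refine ⟨?_, ?_, ?_, ?_⟩
  · intro x hx hsx y hy hsy
    have := o1 x (hmem x hx hsx) y (hmem y hy hsy)
    rw [hJ x hx] at this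
    exact this
  · intro x hx hsx
    have h1 : Real.sqrt (mx (ka e0 e0 T') {y ∈ R | T'.s y ≠ 0} (GT Hm e0 e0 T')
        (GT Hm e0 e0 T₀) x) ≤ Real.sqrt (q ^ 80) +
        (Q.card : ℝ) * (2 * Real.sqrt (2 / g₀ * q ^ 250)) := o2 x (hmem x hx hsx)
    have hs : Real.sqrt (q ^ 80) = q ^ 40 := by
      rw [show q ^ 80 = (q ^ 40) ^ 2 by rw [← pow_mul], Real.sqrt_sq (by positivity)]
    have h2 : (Q.card : ℝ) * (2 * Real.sqrt (2 / g₀ * q ^ 250)) ≤ q ^ 40 := by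
      calc (Q.card : ℝ) * (2 * Real.sqrt (2 / g₀ * q ^ 250))
          ≤ (q⁻¹) ^ 2 * (2 * (q ^ 121 / 4)) := by gcongr
        _ = (q ^ (119 + 2) * (q⁻¹) ^ 2) / 2 := by ring
        _ = q ^ 119 / 2 := by rw [qr hq]
        _ ≤ q ^ 40 := by
            have h5 : q ^ 119 ≤ q ^ 40 := pow_le_pow_of_le_one hq.le hq1 (by norm_num)
            have h6 : 0 ≤ q ^ 119 := by positivity
            linarith
    have h3 : Real.sqrt (mx (ka e0 e0 T') {y ∈ R | T'.s y ≠ 0} (GT Hm e0 e0 T')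
        (GT Hm e0 e0 T₀) x) ≤ 2 * q ^ 40 := by
      rw [hs] at h1
      linarith
    have h4 := mx_nonneg' (ka e0 e0 T') {y ∈ R | T'.s y ≠ 0} (GT Hm e0 e0 T')
        (GT Hm e0 e0 T₀) x (fun y _ => hka y)
    rw [Real.sqrt_le_left (by positivity)] at h3
    calc _ ≤ (2 * q ^ 40) ^ 2 := h3
      _ = _ := by ring
  · have h1 : Real.sqrt (MM (ka e0 e0 T') {y ∈ R | T'.s y ≠ 0} (GT Hm e0 e0 T')
        (GT Hm e0 e0 T₀)) ≤ Real.sqrt ((q⁻¹) ^ 280) + (Q.card : ℝ) * 2 := o3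
    have hs : Real.sqrt ((q⁻¹) ^ 280) = (q⁻¹) ^ 140 := by
      rw [show (q⁻¹) ^ 280 = ((q⁻¹) ^ 140) ^ 2 by rw [← pow_mul], Real.sqrt_sq (by positivity)]
    have h2 : (q⁻¹) ^ 2 ≤ (q⁻¹) ^ 140 := pow_le_pow_right₀ hr1 (by norm_num)
    have h3 : Real.sqrt (MM (ka e0 e0 T') {y ∈ R | T'.s y ≠ 0} (GT Hm e0 e0 T')
        (GT Hm e0 e0 T₀)) ≤ 3 * (q⁻¹) ^ 140 := by
      rw [hs] at h1
      linarith
    rw [Real.sqrt_le_left (by positivity)] at h3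
    calc _ ≤ (3 * (q⁻¹) ^ 140) ^ 2 := h3
      _ = _ := by ring
  · have h1 : ({x ∈ R | T'.s x = 0} : Finset X).card ≤ ⌊(q⁻¹) ^ 2260⌋₊ := hSt.num
    have h2 : (({x ∈ R | T'.s x = 0} : Finset X).card : ℝ) ≤ (⌊(q⁻¹) ^ 2260⌋₊ : ℝ) := by
      exact_mod_cast h1
    exact h2.trans (Nat.floor_le (by positivity))

end Pool.Agent.ATT.H76
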