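import Pool.Agent.ATT.Stmts

/-!
# Helper76, row ATA of the tank ATT: the attempt from the phases
-/

set_option autoImplicit false

open MeasureTheory ProbabilityTheory Function Filter

open scoped ENNReal BigOperators Topology NNReal Matrix

noncomputable section

namespace Pool.Agent.ATT.H76

open Pool.Agent.LE.QF (HJ HM gG LL dC)
open Pool.Agent.KIL (KJ KGd Cut gam aa yn ym cu)
open Pool.Agent.ANP (Cfg gm Att)

variable {X : Type} [Fintype X] [DecidableEq X]

lemma pe_nonneg (l B : ℝ) (z : ℂ) : 0 ≤ pe l B z := by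
  unfold pe
  have h1 := Real.cosh_pos (l * z.re)
  have h2 := Real.cosh_pos (l * z.im)
  have h3 := Real.exp_pos B
  positivity

lemma U_nonneg (A : Pa X) (T : Cfg X) (Qr : Finset X) (Go : Matrix X X ℂ) : 0 ≤ A.U T Qr Go := by
  unfold Pa.U
  refine add_nonneg (add_nonneg ?_ ?_) (Real.exp_pos _).le
  · exact Finset.sum_nonneg fun x _ => Finset.sum_nonneg fun y _ => pe_nonneg _ _ _
  · exact Finset.sum_nonneg fun x _ => (Real.exp_pos _).le

omit [Fintype X] [DecidableEq X] in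
lemma mx_self (κ : X → ℝ) (S : Finset X) (G : Matrix X X ℂ) (x : X) : mx κ S G G x = 0 := by
  simp [mx]

omit [Fintype X] [DecidableEq X] in
lemma MM_self (κ : X → ℝ) (S : Finset X) (G : Matrix X X ℂ) : MM κ S G G = 0 := by
  simp [MM, mx_self]

/-- the phases one after the other -/
lemma phases (hRvs : RvsStmt) (hCup : CupStmt) (A : Pa X) (κs g₀ Λ Lc hK kI p B : ℝ) (nP : ℕ)
    (hA : A.Hyp κs g₀ Λ Lc hK kI) (hp : 0 ≤ p) (hB : 0 ≤ B) (hph : PhsAt A hK nP p B)
    (Okf : Cfg X → Prop)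
    (hok : ∀ (T' : Cfg X) (Go : Matrix X X ℂ), A.St T' ∅ Go → A.U T' ∅ Go < 1 →
      (∀ b ∈ A.Q, ∀ x ∈ A.al T', A.k A.T₀ b * ‖A.G A.T₀ b x‖ ^ 2 ≤ hK) → Okf T') :
    ∀ (n : ℕ) (T : Cfg X) (Qr : Finset X) (Go : Matrix X X ℂ), Qr.card = n → A.St T Qr Go →
      (A.kd T).card + n * nP ≤ A.N →
      (∀ b ∈ A.Q, ∀ c ∈ A.al T, A.k A.T₀ b * ‖A.G A.T₀ b c‖ ^ 2 ≤ hK) →
      Att A.Rk A.Q A.val Okf T (ENNReal.ofReal (n * p + (1 + n * B) * cu (A.U T Qr Go))) := by
  obtain ⟨-, hmono, hc0, hc1, -⟩ := hCup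
  intro n
  induction n with
  | zero =>
    intro T Qr Go hcard hSt hN hl
    have hQr : Qr = ∅ := Finset.card_eq_zero.1 hcard
    subst hQr
    by_cases hU : A.U T ∅ Go < 1
    · exact Att.mono T 0 _ (zero_le) (Att.ok T (hok T Go hSt hU hl))
    · push Not at hU
      refine Att.mono T 1 _ ?_ (Att.one T)
      rw [hc1 _ hU]
      simp
  | succ n ih =>
    intro T Qr Go hcard hSt hN hl
    obtain ⟨b, hb⟩ : Qr.Nonempty := by
      rw [← Finset.card_pos, hcard]; omega
    have h := hph T Qr Go b hSt hb (hl b (hSt.sub hb)) (by nlinarith) Okf (n * p) (1 + n * B)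
      (by positivity) (by positivity) ?_
    · have e : (n : ℝ) * p + p + (1 + n * B + B) * cu (A.U T Qr Go) =
          ((n + 1 : ℕ) : ℝ) * p + (1 + ((n + 1 : ℕ) : ℝ) * B) * cu (A.U T Qr Go) := by
        push_cast; ring
      rw [e] at h
      exact h
    · intro T' hSt' hal hkd hU' hlt
      obtain ⟨r1, r2, r3, r4⟩ := hRvs X A κs g₀ Λ Lc hK kI hA T' Qr Go b hSt' hb hlt
      refine Att.ap T' b _ (hSt'.sub hb) ?_
      have hcard' : (Qr.erase b).card = n := by
        rw [Finset.card_erase_of_mem hb, hcard]; rfl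
      have h2 := ih (T'.rv {b} A.val) (Qr.erase b) _ hcard' r1 (by
        rw [r4]; nlinarith) (by
        intro b' hb' c hc
        rw [r3] at hc
        exact hl b' hb' c (hal hc))
      refine Att.mono _ _ _ ?_ h2
      apply ENNReal.ofReal_le_ofReal
      have h3 := hmono r2
      have h4 : (0 : ℝ) ≤ 1 + n * B := by positivity
      nlinarith [mul_le_mul_of_nonneg_left h3 h4]

theorem ata (hStk : StkStmt) (hRvs : RvsStmt) (hCup : CupStmt) : AtaStmt := by
  intro X _ _ A κs g₀ Λ Lc hK kI p B nP hA hp hB hph hN Okf hok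
  classical
  set D : Finset X := ({x ∈ A.R | ∃ b ∈ A.Q, hK < A.k A.T₀ b * ‖A.G A.T₀ b x‖ ^ 2} : Finset X)
    with hD
  have hpos := hA.pos
  have hv : A.v ≠ 0 := hpos.2.2.1.ne'
  have hal : A.al A.T₀ = A.R := by
    unfold Pa.al
    rw [Finset.filter_eq_self]
    intro x hx
    rw [(hA.hR x hx).1]
    exact hv
  have hkd : A.kd A.T₀ = ∅ := by
    unfold Pa.kd
    rw [Finset.filter_eq_empty_iff]
    intro x hx
    rw [(hA.hR x hx).1]
    exact hv
  have hSt : A.St A.T₀ A.Q (A.G A.T₀) := by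
    refine ⟨rfl, fun x _ _ => ⟨rfl, rfl⟩, fun x hx => Or.inr ⟨rfl, (hA.hR x hx).1⟩,
      Finset.Subset.refl _, fun b _ => ⟨rfl, rfl⟩, fun b hb hb' => absurd hb hb', ?_, ?_, ?_, ?_,
      ?_⟩
    · rw [hkd]; simp
    · rw [hkd]; simp
    · intro x _ y _
      simp
    · intro x _
      rw [mx_self]; simp
    · rw [MM_self]; simp
  have hDR : D ⊆ A.R := Finset.filter_subset _ _
  have hDk : D ⊆ A.Rk := by
    intro x hx
    obtain ⟨h1, b, hb, h2⟩ := Finset.mem_filter.1 hx
    by_contra hcon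
    exact absurd (hA.far₀ b hb x h1 hcon) (not_le.2 h2)
  obtain ⟨s1, s2, s3, s4⟩ := hStk X A κs g₀ Λ Lc hK kI hA A.T₀ A.Q D (A.G A.T₀) hSt
    (by rw [hal]; exact hDR) hDk (by
      rw [hkd]
      have : D.card + A.Q.card * nP ≤ A.N := hN
      simp only [Finset.card_empty, zero_add]
      exact le_trans (Nat.le_add_right _ _) this)
  obtain ⟨hcd, hmono, hc0, hc1, hc2⟩ := id hCup
  set a : ℝ := A.Q.card * p with ha
  set M : ℝ := 1 + A.Q.card * B with hM
  have ha0 : 0 ≤ a := by positivity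
  have hM0 : 0 ≤ M := by positivity
  have hcont : Continuous cu := hcd.continuous
  have hkill := Att.kill (R := A.Rk) (Q := A.Q) (v := A.val) (Ok := Okf) A.T₀ D
    (fun ζ => ENNReal.ofReal (a + M * cu (A.U (A.T₀.kl D ζ) A.Q (A.G A.T₀)))) hDk
    (fun x hx => by rw [(hA.hR x (hDR hx)).1]; exact hpos.2.2.1)
    (by
      apply ENNReal.measurable_ofReal.comp
      exact (measurable_const.add (measurable_const.mul (hcont.measurable.comp s2))))
    (by
      intro ζ
      obtain ⟨t1, t2, t3, t4, t5⟩ := s1 ζ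
      refine phases hRvs hCup A κs g₀ Λ Lc hK kI p B nP hA hp hB hph Okf hok A.Q.card
        (A.T₀.kl D ζ) A.Q (A.G A.T₀) rfl t1 ?_ ?_
      · rw [t4, hkd, Finset.empty_union]; exact hN
      · intro b hb c hc
        rw [t5, hal] at hc
        by_contra hcon
        push Not at hcon
        have := (Finset.mem_sdiff.1 hc).2
        exact this (Finset.mem_filter.2 ⟨(Finset.mem_sdiff.1 hc).1, b, hb, hcon⟩))
  refine Att.mono _ _ _ ?_ hkill
  have hprob : IsProbabilityMeasure (gm (fun _ => 0) (A.T₀.kv D)) := by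
    unfold gm; infer_instance
  have hUk : ∀ ζ, cu (A.U (A.T₀.kl D ζ) A.Q (A.G A.T₀)) ≤ cu (A.Ue A.T₀ D A.Q (A.G A.T₀) ζ) :=
    fun ζ => hmono (s1 ζ).2.2.1
  have hU0 : A.U A.T₀ A.Q (A.G A.T₀) =
      (∑ x ∈ A.R ∪ A.Q, A.R.card * (4 * Real.exp (1 - A.l x * A.ε x))) +
          A.R.card * Real.exp (1 - A.lm * A.εm) + Real.exp (1 - A.lM * A.εM) := by
    unfold Pa.U
    rw [hal]
    congr 1
    · congr 1
      · refine Finset.sum_congr rfl fun x _ => ?_
        rw [Finset.sum_congr rfl (g := fun _ => 4 * Real.exp (1 - A.l x * A.ε x))]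
        · rw [Finset.sum_const, nsmul_eq_mul]
        · intro y _
          unfold pe Pa.bud
          rw [hkd]
          simp
          ring
      · rw [Finset.sum_congr rfl (g := fun _ => Real.exp (1 - A.lm * A.εm))]
        · rw [Finset.sum_const, nsmul_eq_mul]
        · intro x _
          unfold Pa.bum
          rw [hkd, mx_self]
          simp
          ring
    · unfold Pa.buM
      rw [hkd, MM_self]
      simp
      ring
  calc ∫⁻ ζ, ENNReal.ofReal (a + M * cu (A.U (A.T₀.kl D ζ) A.Q (A.G A.T₀)))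
        ∂(gm (fun _ => 0) (A.T₀.kv D))
      ≤ ∫⁻ ζ, (ENNReal.ofReal a + ENNReal.ofReal M * ENNReal.ofReal
          (cu (A.Ue A.T₀ D A.Q (A.G A.T₀) ζ))) ∂(gm (fun _ => 0) (A.T₀.kv D)) := by
        refine lintegral_mono fun ζ => ?_
        rw [← ENNReal.ofReal_mul hM0]
        refine le_trans (ENNReal.ofReal_le_ofReal ?_) ENNReal.ofReal_add_le
        have := mul_le_mul_of_nonneg_left (hUk ζ) hM0
        linarith
    _ = ENNReal.ofReal a + ENNReal.ofReal M * ∫⁻ ζ, ENNReal.ofReal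
          (cu (A.Ue A.T₀ D A.Q (A.G A.T₀) ζ)) ∂(gm (fun _ => 0) (A.T₀.kv D)) := by
        have hm : Measurable fun ζ => ENNReal.ofReal (cu (A.Ue A.T₀ D A.Q (A.G A.T₀) ζ)) :=
          ENNReal.measurable_ofReal.comp (hcont.measurable.comp s3)
        rw [lintegral_add_left measurable_const, lintegral_const, measure_univ, mul_one,
          lintegral_const_mul _ hm]
    _ ≤ ENNReal.ofReal a + ENNReal.ofReal M *
          ENNReal.ofReal (cu (A.U A.T₀ A.Q (A.G A.T₀))) := by
        gcongr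
    _ = ENNReal.ofReal (a + M * cu (A.U A.T₀ A.Q (A.G A.T₀))) := by
        rw [← ENNReal.ofReal_mul hM0, ← ENNReal.ofReal_add ha0]
        exact mul_nonneg hM0 (hc0 _ (U_nonneg _ _ _ _)).1
    _ ≤ _ := by
        apply ENNReal.ofReal_le_ofReal
        rw [← hU0]
        have h1 := (hc0 _ (U_nonneg A A.T₀ A.Q (A.G A.T₀))).2.2
        have h2 := U_nonneg A A.T₀ A.Q (A.G A.T₀)
        have h3 : (0:ℝ) ≤ A.Q.card * B := by positivity
        nlinarith [mul_le_mul_of_nonneg_left h1 hM0]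

end Pool.Agent.ATT.H76
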