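import Pool.Agent.ATT.StmtsP
import Pool.Agent.Helper76_ATT.NumC

/-!
# Helper76, tank ATT: an attempt succeeds with probability at least `1 - exp (-1/q)`, `s = q ^ 2000`
-/

set_option autoImplicit false

open scoped BigOperators NNReal ENNReal

noncomputable section

namespace Pool.Agent.ATT.H76

open Pool.Agent.ANP (Cfg Att)

/-- a polynomial times a Gaussian -/
lemma ev_exp (C c : ℝ) (m : ℕ) (hC : 0 ≤ C) (hc : 0 < c) :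
    ∃ K : ℝ, 1 ≤ K ∧ ∀ r : ℝ, K ≤ r → C * r ^ m * Real.exp (-(c * r ^ 2)) ≤ Real.exp (-r) := by
  have h1 := (Real.tendsto_pow_mul_exp_neg_atTop_nhds_zero m).const_mul C
  rw [mul_zero] at h1
  have h2 := (h1.eventually (ge_mem_nhds (show (0 : ℝ) < 1 by norm_num))).and
    (Filter.eventually_ge_atTop (0 : ℝ))
  obtain ⟨K, hK⟩ := Filter.eventually_atTop.1 h2
  refine ⟨max (max K 1) (2 / c), le_trans (le_max_right _ _) (le_max_left _ _), fun r hr => ?_⟩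
  have hrK : K ≤ r := le_trans (le_trans (le_max_left _ _) (le_max_left _ _)) hr
  have hr1 : 1 ≤ r := le_trans (le_trans (le_max_right _ _) (le_max_left _ _)) hr
  have hrc : 2 / c ≤ r := le_trans (le_max_right _ _) hr
  have h3 := (hK r hrK).1
  have h4 : 2 * r ≤ c * r ^ 2 := by
    rw [div_le_iff₀ hc] at hrc
    nlinarith
  have h5 : Real.exp (-(c * r ^ 2)) ≤ Real.exp (-r) * Real.exp (-r) := by
    rw [← Real.exp_add]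
    exact Real.exp_le_exp.2 (by linarith)
  have h6 : 0 < Real.exp (-r) := Real.exp_pos _
  calc C * r ^ m * Real.exp (-(c * r ^ 2)) ≤ C * r ^ m * (Real.exp (-r) * Real.exp (-r)) := by
        gcongr
    _ = (C * (r ^ m * Real.exp (-r))) * Real.exp (-r) := by ring
    _ ≤ 1 * Real.exp (-r) := by gcongr
    _ = Real.exp (-r) := one_mul _

/-- square roots which occur -/
lemma sq1 {c₀ a : ℝ} (hc : 0 < c₀) (hc1 : c₀ ≤ 1) (n a' : ℝ)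
    (hn : 0 ≤ n) (ha' : a ≤ a' ^ 2) (ha0 : 0 ≤ a') :
    Real.sqrt (a / c₀ * n ^ 2) ≤ a' / c₀ * n := by
  rw [Real.sqrt_le_left (by positivity)]
  have h1 : a / c₀ ≤ (a' / c₀) ^ 2 := by
    rw [div_pow, div_le_div_iff₀ hc (by positivity)]
    have h2 : c₀ ^ 2 ≤ c₀ := by nlinarith
    calc a * c₀ ^ 2 ≤ a' ^ 2 * c₀ ^ 2 := by gcongr
      _ ≤ a' ^ 2 * c₀ := by gcongr
  calc a / c₀ * n ^ 2 ≤ (a' / c₀) ^ 2 * n ^ 2 := by gcongr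
    _ = _ := by ring

/-- the double square root -/
lemma sq2 {q c₀ : ℝ} (hq : 0 < q) (hq1 : q ≤ 1) (hc : 0 < c₀) (hc1 : c₀ ≤ 1) :
    Real.sqrt (1 / (c₀ * q ^ 2250) * Real.sqrt (1 / (c₀ * q ^ 2250) * (64 * (q⁻¹) ^ 1500))) ≤
      3 / c₀ * (q⁻¹) ^ 2063 := by
  have hr : 0 < q⁻¹ := inv_pos.2 hq
  have hr1 : 1 ≤ q⁻¹ := (one_le_inv₀ hq).2 hq1
  have e1 : 1 / (c₀ * q ^ 2250) * (64 * (q⁻¹) ^ 1500) = 64 / c₀ * ((q⁻¹) ^ 1875) ^ 2 := by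
    rw [← pow_mul, show 1875 * 2 = 2250 + 1500 by norm_num, pow_add, inv_pow q 2250]
    field_simp
  have h1 : Real.sqrt (1 / (c₀ * q ^ 2250) * (64 * (q⁻¹) ^ 1500)) ≤
      8 / c₀ * (q⁻¹) ^ 1875 := by
    rw [e1]
    exact sq1 hc hc1 _ 8 (by positivity) (by norm_num) (by norm_num)
  rw [Real.sqrt_le_left (by positivity)]
  calc 1 / (c₀ * q ^ 2250) * Real.sqrt (1 / (c₀ * q ^ 2250) * (64 * (q⁻¹) ^ 1500))
      ≤ 1 / (c₀ * q ^ 2250) * (8 / c₀ * (q⁻¹) ^ 1875) := by gcongr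
    _ = 8 / c₀ ^ 2 * (q⁻¹) ^ 4125 := by
        rw [show 4125 = 2250 + 1875 by norm_num, pow_add, inv_pow q 2250]
        field_simp
    _ ≤ 9 / c₀ ^ 2 * (q⁻¹) ^ 4126 := by
        have : (q⁻¹) ^ 4125 ≤ (q⁻¹) ^ 4126 := pow_le_pow_right₀ hr1 (by norm_num)
        gcongr
        norm_num
    _ = (3 / c₀ * (q⁻¹) ^ 2063) ^ 2 := by
        rw [mul_pow, ← pow_mul, div_pow]
        norm_num

/-- a square root with a constant -/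
lemma sq3 {q c₀ a a' : ℝ} (hq : 0 < q) (hc : 0 < c₀) (hc1 : c₀ ≤ 1) (ha' : 64 * a ≤ a' ^ 2)
    (ha0 : 0 ≤ a') :
    Real.sqrt (a / (c₀ * q ^ 2250) * (64 * (q⁻¹) ^ 1500)) ≤ a' / c₀ * (q⁻¹) ^ 1875 := by
  have hr : 0 < q⁻¹ := inv_pos.2 hq
  have e1 : a / (c₀ * q ^ 2250) * (64 * (q⁻¹) ^ 1500) =
      (64 * a) / c₀ * ((q⁻¹) ^ 1875) ^ 2 := by
    rw [← pow_mul, show 1875 * 2 = 2250 + 1500 by norm_num, pow_add, inv_pow q 2250]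
    field_simp
  rw [e1]
  exact sq1 hc hc1 _ a' (by positivity) ha' ha0

/-- the conditions of the phase on the numbers -/
lemma conds (ε₀ c₀ lam C g₀ g₁ gb q K : ℝ) (hε₀ : 0 < ε₀) (hc₀ : 0 < c₀) (hc₁ : c₀ ≤ 1)
    (hlam : 0 < lam) (hC : 1 ≤ C) (hg₀ : 0 < g₀) (hg₁ : 0 ≤ g₁) (hq : 0 < q)
    (hK : K * q ≤ 1) (k0 : 2000 ≤ K) (k1 : 2 / g₀ / ε₀ ≤ K)
    (k2 : 12 * (g₁ + 1) / (c₀ * g₀) / ε₀ ^ 2 ≤ K) (k3 : 60 * C / (c₀ * g₀ * lam) ≤ K)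
    (k4 : 100 / g₀ ≤ K) (k6 : 8 * (g₁ + 1) / g₀ ≤ K)
    (k8 : 300 * (2 * ((g₁ + 1) * gb ^ 2 / g₀) + 1) ≤ K) (k9 : 120 / g₀ ≤ K)
    (k10 : 256 * ((g₁ + 1) * gb ^ 2 / g₀) ≤ K) (j : ℝ) (hj : j ≤ (q⁻¹) ^ 2) :
    2 * q ^ 198 / g₀ ≤ ε₀ ∧
    ((g₁ + 1) * q ^ 2000) * Real.sqrt (2 / (c₀ * q ^ 2250) * (64 * (q⁻¹) ^ 1500)) / g₀ ≤ ε₀ ^ 2 ∧
    C * (q ^ 198) ^ 2 * Real.sqrt (1 / (c₀ * q ^ 2250) *
      Real.sqrt (1 / (c₀ * q ^ 2250) * (64 * (q⁻¹) ^ 1500))) / g₀ * q ^ 2000 ≤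
      lam * q ^ 256 / 20 ∧
    q ^ 60 ≤ 1 / 16 ∧ 2 * q ^ 198 / g₀ ≤ q ^ 60 ∧
    ((g₁ + 1) * q ^ 2000) * Real.sqrt (1 / q ^ 2250 * (64 * (q⁻¹) ^ 1500)) / g₀ ≤
      (q ^ 60) ^ 2 ∧
    j * (4 * (q ^ 60) ^ 2 + 16 * q ^ 256) ≤ 1 / 8 ∧
    300 * j * (2 * (((g₁ + 1) * q ^ 2000) * gb ^ 2 / g₀) / q ^ 2250 + 1) * q ^ 256 ≤ 1 ∧
    q ^ 2000 * (20 * j * (q ^ 198) ^ 2 * Real.sqrt (1 / q ^ 2250 *
        Real.sqrt (1 / q ^ 2250 * (64 * (q⁻¹) ^ 1500))) / (q ^ 256 * g₀) +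
      128 * j * q ^ 256 * (q ^ 198) ^ 2 * (1 / q ^ 2250) *
        (((g₁ + 1) * q ^ 2000) * gb ^ 2 / g₀) / q ^ 2250) ≤ 1 := by
  have hq1 : q ≤ 1 := by nlinarith
  have hq2 : q ≤ 1 / 2000 := by
    rw [le_div_iff₀ (by norm_num)]; nlinarith
  have hr : 0 < q⁻¹ := inv_pos.2 hq
  have hr1 : 1 ≤ q⁻¹ := (one_le_inv₀ hq).2 hq1
  have s1 : Real.sqrt (1 / q ^ 2250 * (64 * (q⁻¹) ^ 1500)) ≤ 8 * (q⁻¹) ^ 1875 := by
    have := sq3 (q := q) (c₀ := 1) (a := 1) (a' := 8) hq one_pos le_rfl (by norm_num)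
      (by norm_num)
    simpa using this
  have s2 : Real.sqrt (1 / q ^ 2250 * Real.sqrt (1 / q ^ 2250 * (64 * (q⁻¹) ^ 1500))) ≤
      3 * (q⁻¹) ^ 2063 := by
    have := sq2 (q := q) (c₀ := 1) hq hq1 one_pos le_rfl
    simpa using this
  refine ⟨?_, ?_, ?_, ?_, ?_, ?_, ?_, ?_, ?_⟩
  · have h1 := small hq hq1 hK (c := 2 / g₀ / ε₀) (by positivity) k1 198 (by norm_num)
    rw [div_mul_eq_mul_div, div_le_one hε₀] at h1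
    calc 2 * q ^ 198 / g₀ = 2 / g₀ * q ^ 198 := by ring
      _ ≤ ε₀ := h1
  · have h1 := small hq hq1 hK (c := 12 * (g₁ + 1) / (c₀ * g₀) / ε₀ ^ 2) (by positivity) k2 125
      (by norm_num)
    rw [div_mul_eq_mul_div, div_le_one (by positivity)] at h1
    have h2 := sq3 (q := q) (c₀ := c₀) (a := 2) (a' := 12) hq hc₀ hc₁ (by norm_num)
      (by norm_num)
    calc ((g₁ + 1) * q ^ 2000) * Real.sqrt (2 / (c₀ * q ^ 2250) * (64 * (q⁻¹) ^ 1500)) / g₀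
        ≤ ((g₁ + 1) * q ^ 2000) * (12 / c₀ * (q⁻¹) ^ 1875) / g₀ := by gcongr
      _ = 12 * (g₁ + 1) / (c₀ * g₀) * (q ^ (125 + 1875) * (q⁻¹) ^ 1875) := by
          field_simp
      _ = 12 * (g₁ + 1) / (c₀ * g₀) * q ^ 125 := by rw [qr hq]
      _ ≤ ε₀ ^ 2 := h1
  · have h1 := small hq hq1 hK (c := 60 * C / (c₀ * g₀ * lam)) (by positivity) k3 77
      (by norm_num)
    have h2 := sq2 hq hq1 hc₀ hc₁
    calc C * (q ^ 198) ^ 2 * Real.sqrt (1 / (c₀ * q ^ 2250) *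
          Real.sqrt (1 / (c₀ * q ^ 2250) * (64 * (q⁻¹) ^ 1500))) / g₀ * q ^ 2000
        ≤ C * (q ^ 198) ^ 2 * (3 / c₀ * (q⁻¹) ^ 2063) / g₀ * q ^ 2000 := by gcongr
      _ = 3 * C / (c₀ * g₀) * (q ^ (333 + 2063) * (q⁻¹) ^ 2063) := by
          field_simp
      _ = 3 * C / (c₀ * g₀) * q ^ 333 := by rw [qr hq]
      _ = (60 * C / (c₀ * g₀ * lam) * q ^ 77) * (lam * q ^ 256 / 20) := by
          field_simp
          ring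
      _ ≤ 1 * (lam * q ^ 256 / 20) := by gcongr
      _ = _ := one_mul _
  · have := pow_small hq hq1 60 (by norm_num)
    linarith
  · have h1 := small hq hq1 hK (c := 100 / g₀) (by positivity) k4 138 (by norm_num)
    calc 2 * q ^ 198 / g₀ = (100 / g₀ * q ^ 138) * (q ^ 60 / 50) := by ring
      _ ≤ 1 * (q ^ 60 / 50) := by gcongr
      _ ≤ q ^ 60 := by
          have : 0 ≤ q ^ 60 := by positivity
          linarith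
  · have h1 := small hq hq1 hK (c := 8 * (g₁ + 1) / g₀) (by positivity) k6 5 (by norm_num)
    calc ((g₁ + 1) * q ^ 2000) * Real.sqrt (1 / q ^ 2250 * (64 * (q⁻¹) ^ 1500)) / g₀
        ≤ ((g₁ + 1) * q ^ 2000) * (8 * (q⁻¹) ^ 1875) / g₀ := by gcongr
      _ = 8 * (g₁ + 1) / g₀ * (q ^ (125 + 1875) * (q⁻¹) ^ 1875) := by
          field_simp
      _ = 8 * (g₁ + 1) / g₀ * q ^ 125 := by rw [qr hq]
      _ = (8 * (g₁ + 1) / g₀ * q ^ 5) * (q ^ 60) ^ 2 := by ring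
      _ ≤ 1 * (q ^ 60) ^ 2 := by gcongr
      _ = _ := one_mul _
  · calc j * (4 * (q ^ 60) ^ 2 + 16 * q ^ 256)
        ≤ (q⁻¹) ^ 2 * (4 * (q ^ 60) ^ 2 + 16 * q ^ 256) := by gcongr
      _ = 4 * (q ^ (118 + 2) * (q⁻¹) ^ 2) + 16 * (q ^ (254 + 2) * (q⁻¹) ^ 2) := by ring
      _ = 4 * q ^ 118 + 16 * q ^ 254 := by rw [qr hq, qr hq]
      _ ≤ 1 / 8 := by
          have a1 := pow_small hq hq1 118 (by norm_num)
          have a2 := pow_small hq hq1 254 (by norm_num)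
          linarith
  · have h1 := small hq hq1 hK (c := 300 * (2 * ((g₁ + 1) * gb ^ 2 / g₀) + 1)) (by positivity) k8
      4 (by norm_num)
    have h2 : q ^ 2000 / q ^ 2250 = (q⁻¹) ^ 250 := by
      rw [div_eq_mul_inv, ← inv_pow, show 2250 = 250 + 2000 by norm_num, mul_comm]
      exact rq hq _ _
    calc 300 * j * (2 * (((g₁ + 1) * q ^ 2000) * gb ^ 2 / g₀) / q ^ 2250 + 1) * q ^ 256
        ≤ 300 * (q⁻¹) ^ 2 * (2 * (((g₁ + 1) * q ^ 2000) * gb ^ 2 / g₀) / q ^ 2250 + 1) *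
            q ^ 256 := by gcongr
      _ = 300 * (q⁻¹) ^ 2 * (2 * ((g₁ + 1) * gb ^ 2 / g₀) * (q ^ 2000 / q ^ 2250) + 1) *
            q ^ 256 := by ring
      _ = 300 * (2 * ((g₁ + 1) * gb ^ 2 / g₀) * (q ^ (4 + 252) * (q⁻¹) ^ 252) +
            q ^ (254 + 2) * (q⁻¹) ^ 2) := by
          rw [h2]
          ring
      _ = 300 * (2 * ((g₁ + 1) * gb ^ 2 / g₀) * q ^ 4 + q ^ 254) := by rw [qr hq, qr hq]
      _ ≤ 300 * (2 * ((g₁ + 1) * gb ^ 2 / g₀) * q ^ 4 + q ^ 4) := by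
          have : q ^ 254 ≤ q ^ 4 := pow_le_pow_of_le_one hq.le hq1 (by norm_num)
          linarith
      _ = 300 * (2 * ((g₁ + 1) * gb ^ 2 / g₀) + 1) * q ^ 4 := by ring
      _ ≤ 1 := h1
  · have h1 := small hq hq1 hK (c := 120 / g₀) (by positivity) k9 75 (by norm_num)
    have h2 := small hq hq1 hK (c := 256 * ((g₁ + 1) * gb ^ 2 / g₀)) (by positivity) k10 150
      (by norm_num)
    have i1 : ∀ n : ℕ, 1 / q ^ n = (q⁻¹) ^ n := fun n => by rw [inv_pow, one_div]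
    have h3 : 20 * j * (q ^ 198) ^ 2 * Real.sqrt (1 / q ^ 2250 *
        Real.sqrt (1 / q ^ 2250 * (64 * (q⁻¹) ^ 1500))) / (q ^ 256 * g₀) ≤
        60 / g₀ * (q ^ 396 * (q⁻¹) ^ 2321) := by
      calc 20 * j * (q ^ 198) ^ 2 * Real.sqrt (1 / q ^ 2250 *
            Real.sqrt (1 / q ^ 2250 * (64 * (q⁻¹) ^ 1500))) / (q ^ 256 * g₀)
          ≤ 20 * (q⁻¹) ^ 2 * (q ^ 198) ^ 2 * (3 * (q⁻¹) ^ 2063) / (q ^ 256 * g₀) := by gcongr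
        _ = 60 / g₀ * (q ^ 396 * ((q⁻¹) ^ 2065 * (1 / q ^ 256))) := by
            field_simp
            ring
        _ = _ := by rw [i1, ← pow_add]
    have h4 : 128 * j * q ^ 256 * (q ^ 198) ^ 2 * (1 / q ^ 2250) *
        (((g₁ + 1) * q ^ 2000) * gb ^ 2 / g₀) / q ^ 2250 ≤
        128 * ((g₁ + 1) * gb ^ 2 / g₀) * (q ^ 2652 * (q⁻¹) ^ 4502) := by
      calc 128 * j * q ^ 256 * (q ^ 198) ^ 2 * (1 / q ^ 2250) *
            (((g₁ + 1) * q ^ 2000) * gb ^ 2 / g₀) / q ^ 2250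
          ≤ 128 * (q⁻¹) ^ 2 * q ^ 256 * (q ^ 198) ^ 2 * (1 / q ^ 2250) *
            (((g₁ + 1) * q ^ 2000) * gb ^ 2 / g₀) / q ^ 2250 := by gcongr
        _ = 128 * ((g₁ + 1) * gb ^ 2 / g₀) * (q ^ 2652 * ((q⁻¹) ^ 2 * (1 / q ^ 2250) *
            (1 / q ^ 2250))) := by ring
        _ = _ := by rw [i1, ← pow_add, ← pow_add]
    calc q ^ 2000 * (20 * j * (q ^ 198) ^ 2 * Real.sqrt (1 / q ^ 2250 *
          Real.sqrt (1 / q ^ 2250 * (64 * (q⁻¹) ^ 1500))) / (q ^ 256 * g₀) +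
          128 * j * q ^ 256 * (q ^ 198) ^ 2 * (1 / q ^ 2250) *
          (((g₁ + 1) * q ^ 2000) * gb ^ 2 / g₀) / q ^ 2250)
        ≤ q ^ 2000 * (60 / g₀ * (q ^ 396 * (q⁻¹) ^ 2321) +
          128 * ((g₁ + 1) * gb ^ 2 / g₀) * (q ^ 2652 * (q⁻¹) ^ 4502)) := by gcongr
      _ = 60 / g₀ * (q ^ (75 + 2321) * (q⁻¹) ^ 2321) +
          128 * ((g₁ + 1) * gb ^ 2 / g₀) * (q ^ (150 + 4502) * (q⁻¹) ^ 4502) := by ring
      _ = 60 / g₀ * q ^ 75 + 128 * ((g₁ + 1) * gb ^ 2 / g₀) * q ^ 150 := by rw [qr hq, qr hq]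
      _ = (120 / g₀ * q ^ 75) / 2 + (256 * ((g₁ + 1) * gb ^ 2 / g₀) * q ^ 150) / 2 := by ring
      _ ≤ 1 := by linarith

/-- the sum of the failure probabilities -/
lemma fin_num (Qc p U r2 rD rDD E B e2 : ℝ) (hp0 : 0 ≤ p) (hU0 : 0 ≤ U)
    (hQ : Qc ≤ r2) (hp : p ≤ 32 * rD * E) (hU : U ≤ 30 * rDD * E) (he : e2 ≤ 9) (he0 : 0 ≤ e2)
    (h2 : 1 ≤ r2) (hD : rD ≤ rDD) (hD0 : 0 ≤ rD) (hE : 0 ≤ E) (hB : 0 ≤ B) :
    Qc * p + 3 * (2 + Qc * (e2 * B)) * U ≤ (45 + 90 * (2 + 9 * B) + 9) * (r2 * rDD) * E := by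
  have hDD : 0 ≤ rDD := hD0.trans hD
  have h1 : Qc * p ≤ r2 * (32 * rDD * E) := by
    apply mul_le_mul hQ _ hp0 (by linarith)
    refine hp.trans ?_
    gcongr
  have h3 : 3 * (2 + Qc * (e2 * B)) ≤ 3 * (r2 * (2 + 9 * B)) := by
    have h4 : Qc * (e2 * B) ≤ r2 * (9 * B) := by gcongr
    nlinarith
  have h5 : 3 * (2 + Qc * (e2 * B)) * U ≤ 3 * (r2 * (2 + 9 * B)) * (30 * rDD * E) :=
    mul_le_mul h3 hU hU0 (by positivity)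
  have h6 : 0 ≤ r2 * rDD * E := by positivity
  nlinarith

lemma exp_two {lam : ℝ} (h : lam ≤ 1) : Real.exp (2 * lam) ≤ 9 := by
  have h3 : Real.exp 2 = Real.exp 1 ^ 2 := by rw [← Real.exp_nat_mul]; norm_num
  have := Real.exp_one_lt_d9
  have h4 := Real.exp_pos 1
  calc Real.exp (2 * lam) ≤ Real.exp 2 := Real.exp_le_exp.2 (by linarith)
    _ = Real.exp 1 ^ 2 := h3
    _ ≤ 9 := by nlinarith

lemma exp_fifth : Real.exp (1 / 5) ≤ 5 / 4 := by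
  have h3 : Real.exp (1 / 5) ^ 5 = Real.exp 1 := by
    rw [← Real.exp_nat_mul]; norm_num
  have h4 := Real.exp_one_lt_d9
  by_contra hcon
  push Not at hcon
  have h5 : (5 / 4 : ℝ) ^ 5 < Real.exp (1 / 5) ^ 5 := by gcongr
  rw [h3] at h5
  norm_num at h5 h4
  linarith

lemma exp_j {lam x j : ℝ} (h : lam ≤ 1) (hx : 0 ≤ x) (hj : x - 1 ≤ j) :
    Real.exp (-j / 5) ≤ 5 / 4 * Real.exp (-(lam / 20 * x)) := by
  have h1 : -j / 5 ≤ 1 / 5 + (-(lam / 20 * x)) := by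
    have h3 : lam / 20 * x ≤ 1 / 20 * x := by gcongr
    linarith
  calc Real.exp (-j / 5) ≤ Real.exp (1 / 5 + (-(lam / 20 * x))) := Real.exp_le_exp.2 h1
    _ = Real.exp (1 / 5) * Real.exp (-(lam / 20 * x)) := by rw [Real.exp_add]
    _ ≤ 5 / 4 * Real.exp (-(lam / 20 * x)) :=
        mul_le_mul_of_nonneg_right exp_fifth (Real.exp_pos _).le

lemma exp_v {x : ℝ} (h : x ≤ 1) : Real.exp x ≤ 3 := by
  have := Real.exp_one_lt_d9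
  calc Real.exp x ≤ Real.exp 1 := Real.exp_le_exp.2 h
    _ ≤ 3 := by linarith

lemma exp_r {lam x : ℝ} (h : lam ≤ 1) (hx : 0 ≤ x) :
    Real.exp (-x) ≤ Real.exp (-(lam / 20 * x)) := by
  apply Real.exp_le_exp.2
  have h3 : lam / 20 * x ≤ 1 / 20 * x := by gcongr
  linarith

/-- the sum of the failure probabilities, all parts -/
lemma fin_all (Rc Qc U r E B ev ej e2 el er : ℝ) {D : ℕ} (hR0 : 0 ≤ Rc)
    (hU0 : 0 ≤ U) (hQ : Qc ≤ r ^ 2) (hR : Rc ≤ r ^ D)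
    (hU : U ≤ 30 * r ^ (2 * D) * er) (hev : ev ≤ 3) (hej : ej ≤ 5 / 4 * E) (he2 : e2 ≤ 9)
    (hel : el = E) (her : er ≤ E) (hE : 0 ≤ E) (hr : 1 ≤ r) (hB : 0 ≤ B) (hj0 : 0 ≤ ej)
    (h20 : 0 ≤ e2) (hv0 : 0 ≤ ev) :
    Qc * (3 * ev * ((1 + Rc) * ej) + e2 * el) + 3 * (2 + Qc * (e2 * B)) * U ≤
      (45 + 90 * (2 + 9 * B) + 9) * r ^ (2 * D + 2) * E := by
  have hrD : (1 : ℝ) ≤ r ^ D := one_le_pow₀ hr
  have hp : 3 * ev * ((1 + Rc) * ej) + e2 * el ≤ 32 * r ^ D * E := by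
    rw [hel]
    have h1 : 1 + Rc ≤ 2 * r ^ D := by linarith
    calc 3 * ev * ((1 + Rc) * ej) + e2 * E
        ≤ 3 * 3 * ((2 * r ^ D) * (5 / 4 * E)) + 9 * E := by gcongr
      _ ≤ 3 * 3 * ((2 * r ^ D) * (5 / 4 * E)) + 9 * (r ^ D * E) := by
          have : 1 * E ≤ r ^ D * E := by gcongr
          linarith
      _ = (45 / 2 + 9) * (r ^ D * E) := by ring
      _ ≤ 32 * (r ^ D * E) := by
          have : 0 ≤ r ^ D * E := by positivity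
          linarith
      _ = _ := by ring
  have hU' : U ≤ 30 * r ^ (2 * D) * E := by
    refine hU.trans ?_
    gcongr
  have hp0 : 0 ≤ 3 * ev * ((1 + Rc) * ej) + e2 * el := by
    rw [hel]; positivity
  have h := fin_num Qc _ U (r ^ 2) (r ^ D) (r ^ (2 * D)) E B e2 hp0 hU0 hQ hp hU' he2 h20
    (one_le_pow₀ hr) (pow_le_pow_right₀ hr (by omega)) (by positivity) hE hB
  refine h.trans (le_of_eq ?_)
  ring

/-- THE ATTEMPT -/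
theorem attempt (hPhn : PhnStmt) (hAta : AtaStmt) (hnet : NetStmt) (g₀ g₁ gb : ℝ) (D : ℕ)
    (hg₀ : 0 < g₀) (hg₁ : 0 ≤ g₁) (hgb : 2 ≤ gb) (hD : 2 ≤ D) :
    ∃ K : ℝ, 1 ≤ K ∧ ∀ (X : Type) [Fintype X] [DecidableEq X] (Hm : Matrix X X ℝ) (e0 : ℝ)
      (T₀ : Cfg X) (R Rk Q : Finset X) (v : ℝ≥0) (val : X → ℝ) (q : ℝ),
      In0 Hm e0 T₀ R Q v q g₀ g₁ gb → K * q ≤ 1 → Rk ⊆ R → (R.card : ℝ) ≤ (q⁻¹) ^ D →
      (∀ (T : Cfg X) (Qr : Finset X) (Go : Matrix X X ℂ),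
        (mkA Hm e0 T₀ R Rk Q v val q g₀ gb).St T Qr Go → ∀ b ∈ Qr,
        ∀ x ∈ (mkA Hm e0 T₀ R Rk Q v val q g₀ gb).al T, x ∉ Rk →
          (mkA Hm e0 T₀ R Rk Q v val q g₀ gb).a T b x < q ^ 2250) →
      (∀ b ∈ Q, ∀ x ∈ R, x ∉ Rk →
        ka e0 e0 T₀ b * ‖GT Hm e0 e0 T₀ b x‖ ^ 2 ≤ q ^ 200) →
      (mkA Hm e0 T₀ R Rk Q v val q g₀ gb).Hyp ((g₁ + 1) * q ^ 2000) g₀ ((q⁻¹) ^ 1500)
        (64 * (q⁻¹) ^ 1500) (q ^ 200) (gb ^ 2) ∧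
      ∀ Okf : Cfg X → Prop,
        (∀ (T' : Cfg X) (Go : Matrix X X ℂ),
          (mkA Hm e0 T₀ R Rk Q v val q g₀ gb).St T' ∅ Go →
          (mkA Hm e0 T₀ R Rk Q v val q g₀ gb).U T' ∅ Go < 1 →
          (∀ b ∈ Q, ∀ x ∈ (mkA Hm e0 T₀ R Rk Q v val q g₀ gb).al T',
            ka e0 e0 T₀ b * ‖GT Hm e0 e0 T₀ b x‖ ^ 2 ≤ q ^ 200) → Okf T') →
        Att Rk Q val Okf T₀ (ENNReal.ofReal (Real.exp (-(q⁻¹)))) := by
  obtain ⟨ε₀, c₀, lam, C, B, hε₀, hc₀, hc₁, hlam, hlam1, hC, hB, hPhn⟩ := hPhn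
  obtain ⟨K₁, hK₁, hexp⟩ := ev_exp (45 + 90 * (2 + 9 * B) + 9) (lam / 20) (2 * D + 2)
    (by positivity) (by positivity)
  have hgb0 : 0 ≤ gb := by linarith
  have hCb : 0 ≤ Cb g₀ gb := by unfold Cb; positivity
  set K : ℝ := K₁ + 2000 + 2 / g₀ / ε₀ + 12 * (g₁ + 1) / (c₀ * g₀) / ε₀ ^ 2 +
    60 * C / (c₀ * g₀ * lam) + 100 / g₀ + 8 * (g₁ + 1) / g₀ +
    300 * (2 * ((g₁ + 1) * gb ^ 2 / g₀) + 1) + 120 / g₀ + 256 * ((g₁ + 1) * gb ^ 2 / g₀) +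
    100 * gb ^ 2 + (64 * Cb g₀ gb) ^ 2 + 4 * (gb / g₀) with hKd
  have p1 : 0 ≤ 2 / g₀ / ε₀ := by positivity
  have p2 : 0 ≤ 12 * (g₁ + 1) / (c₀ * g₀) / ε₀ ^ 2 := by positivity
  have p3 : 0 ≤ 60 * C / (c₀ * g₀ * lam) := by positivity
  have p4 : 0 ≤ 100 / g₀ := by positivity
  have p5 : 0 ≤ 8 * (g₁ + 1) / g₀ := by positivity
  have p6 : 0 ≤ 300 * (2 * ((g₁ + 1) * gb ^ 2 / g₀) + 1) := by positivity
  have p7 : 0 ≤ 120 / g₀ := by positivity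
  have p8 : 0 ≤ 256 * ((g₁ + 1) * gb ^ 2 / g₀) := by positivity
  have p9 : 0 ≤ 100 * gb ^ 2 := by positivity
  have p10 : 0 ≤ (64 * Cb g₀ gb) ^ 2 := by positivity
  have p11 : 0 ≤ 4 * (gb / g₀) := by positivity
  refine ⟨K, by linarith, ?_⟩
  intro X _ _ Hm e0 T₀ R Rk Q v val q hIn0 hKq hRk hRc hfar hfar₀
  have hq := hIn0.q0
  have hIn := toIn hnet hIn0 hg₀ hgb0
  have hq1 : q ≤ 1 := by nlinarith
  have hr : 0 < q⁻¹ := inv_pos.2 hq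
  have hr1 : 1 ≤ q⁻¹ := (one_le_inv₀ hq).2 hq1
  have hrK : K ≤ q⁻¹ := by
    rw [← one_div, le_div_iff₀ hq]; exact hKq
  have hHyp := hyp (val := val) hIn K hKq hg₀ hgb (by linarith) (by linarith) (by linarith)
    (by linarith) hRk hfar hfar₀
  refine ⟨hHyp, ?_⟩
  intro Okf hOk
  set A := mkA Hm e0 T₀ R Rk Q v val q g₀ gb with hA
  -- the phase
  set j : ℕ := ⌊(q⁻¹) ^ 2⌋₊ with hj
  have hjr : (j : ℝ) ≤ (q⁻¹) ^ 2 := Nat.floor_le (by positivity)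
  have hjr' : (q⁻¹) ^ 2 - 1 ≤ j := by
    have := Nat.lt_floor_add_one ((q⁻¹) ^ 2)
    linarith
  have hj1 : 1 ≤ j := by
    rw [hj, Nat.one_le_floor_iff]
    exact one_le_pow₀ hr1
  set nP : ℕ := ⌈((q⁻¹) ^ 2 + 1) / q ^ 2250⌉₊ with hnP
  obtain ⟨c1, c2, c3, c4, c5, c6, c7, c8, c9⟩ := conds ε₀ c₀ lam C g₀ g₁ gb q K hε₀ hc₀ hc₁ hlam
    hC hg₀ hg₁ hq hKq (by linarith) (by linarith) (by linarith) (by linarith) (by linarith)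
    (by linarith) (by linarith) (by linarith) (by linarith) (j : ℝ) hjr
  set bL : ℝ := 20 * j * (q ^ 198) ^ 2 * Real.sqrt (1 / q ^ 2250 *
        Real.sqrt (1 / q ^ 2250 * (64 * (q⁻¹) ^ 1500))) / (q ^ 256 * g₀) +
      128 * j * q ^ 256 * (q ^ 198) ^ 2 * (1 / q ^ 2250) *
        (((g₁ + 1) * q ^ 2000) * gb ^ 2 / g₀) / q ^ 2250 with hbL
  have hph := hPhn X A ((g₁ + 1) * q ^ 2000) g₀ ((q⁻¹) ^ 1500) (64 * (q⁻¹) ^ 1500) (q ^ 200)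
    (gb ^ 2) (q ^ 256) ((q⁻¹) ^ 2) (q ^ 60) bL j nP hHyp
    (show q ^ 2250 ≤ 1 from pow_le_one₀ hq.le hq1) c1 c2
    (by rw [show A.v = v from rfl, hIn.vq]; exact c3)
    (by positivity) hj1 (by positivity) c4 c5 c6 c7 c8 le_rfl (by positivity) (Nat.le_ceil _)
  -- the number of kills
  have hcard0 := card0 hnet hIn0 hg₀ hgb0 (q ^ 200) rfl
  have hnP' : (nP : ℝ) ≤ 2 * (q⁻¹) ^ 2252 + 1 := by
    have h1 : ((q⁻¹) ^ 2 + 1) / q ^ 2250 ≤ 2 * (q⁻¹) ^ 2252 := by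
      have i1 : 1 / q ^ 2250 = (q⁻¹) ^ 2250 := by rw [inv_pow, one_div]
      have h2 : (1 : ℝ) ≤ (q⁻¹) ^ 2 := one_le_pow₀ hr1
      calc ((q⁻¹) ^ 2 + 1) / q ^ 2250 = ((q⁻¹) ^ 2 + 1) * (1 / q ^ 2250) := by ring
        _ ≤ ((q⁻¹) ^ 2 + (q⁻¹) ^ 2) * (1 / q ^ 2250) := by gcongr
        _ = 2 * ((q⁻¹) ^ 2 * (q⁻¹) ^ 2250) := by rw [i1]; ring
        _ = 2 * (q⁻¹) ^ 2252 := by rw [← pow_add]
    have h3 := Nat.ceil_lt_add_one (show 0 ≤ ((q⁻¹) ^ 2 + 1) / q ^ 2250 by positivity)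
    rw [← hnP] at h3
    linarith
  have hnum : ({x ∈ A.R | ∃ b ∈ A.Q, q ^ 200 < A.k A.T₀ b * ‖A.G A.T₀ b x‖ ^ 2} :
      Finset X).card + A.Q.card * nP ≤ A.N := by
    show _ ≤ ⌊(q⁻¹) ^ 2260⌋₊
    apply Nat.le_floor
    push_cast
    have h1 : (({x ∈ A.R | ∃ b ∈ A.Q, q ^ 200 < A.k A.T₀ b * ‖A.G A.T₀ b x‖ ^ 2} :
      Finset X).card : ℝ) ≤ gb / g₀ * (q⁻¹) ^ 2202 := hcard0
    have h2 : (A.Q.card : ℝ) * nP ≤ (q⁻¹) ^ 2 * (2 * (q⁻¹) ^ 2252 + 1) :=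
      mul_le_mul hIn.cQ hnP' (Nat.cast_nonneg _) (by positivity)
    have h3 : gb / g₀ * (q⁻¹) ^ 2202 ≤ 1 / 4 * (q⁻¹) ^ 2260 := by
      have h4 := small hq hq1 hKq (c := 4 * (gb / g₀)) p11 (by linarith) 58 (by norm_num)
      calc gb / g₀ * (q⁻¹) ^ 2202 = gb / g₀ * ((q⁻¹) ^ (2202 + 58) * q ^ 58) := by rw [rq hq]
        _ = (4 * (gb / g₀) * q ^ 58) / 4 * (q⁻¹) ^ 2260 := by ring
        _ ≤ 1 / 4 * (q⁻¹) ^ 2260 := by gcongr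
    have h5 : (q⁻¹) ^ 2 * (2 * (q⁻¹) ^ 2252 + 1) ≤ 3 / 4 * (q⁻¹) ^ 2260 := by
      have h6 : (q⁻¹) ^ 2 ≤ (q⁻¹) ^ 2254 := pow_le_pow_right₀ hr1 (by norm_num)
      have h7 : (q⁻¹) ^ 2254 = (q⁻¹) ^ (2254 + 6) * q ^ 6 := (rq hq _ _).symm
      have h8 := small hq hq1 hKq (c := 4) (by norm_num) (by linarith) 6 (by norm_num)
      calc (q⁻¹) ^ 2 * (2 * (q⁻¹) ^ 2252 + 1) = 2 * (q⁻¹) ^ 2254 + (q⁻¹) ^ 2 := by ring
        _ ≤ 3 * (q⁻¹) ^ 2254 := by linarith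
        _ = 3 * (q ^ 6) * (q⁻¹) ^ 2260 := by rw [h7]; ring
        _ ≤ 3 * (1 / 4) * (q⁻¹) ^ 2260 := by
            gcongr
            linarith
        _ = _ := by ring
    linarith
  have hp0 : 0 ≤ 3 * Real.exp (A.v * bL) * ((1 + A.R.card) * Real.exp (-(j : ℝ) / 5)) +
      Real.exp (2 * lam) * Real.exp (-(lam * (q⁻¹) ^ 2 / 20)) := by positivity
  have hB0 : 0 ≤ Real.exp (2 * lam) * B := by positivity
  have hatt := hAta X A ((g₁ + 1) * q ^ 2000) g₀ ((q⁻¹) ^ 1500) (64 * (q⁻¹) ^ 1500) (q ^ 200)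
    (gb ^ 2) _ _ nP hHyp hp0 hB0 hph hnum Okf hOk
  refine Att.mono _ _ _ (ENNReal.ofReal_le_ofReal ?_) hatt
  refine le_trans ?_ (hexp (q⁻¹) (by linarith))
  -- the probabilities
  set E : ℝ := Real.exp (-(lam / 20 * (q⁻¹) ^ 2)) with hE
  have hE0 : 0 < E := Real.exp_pos _
  have hr20 : 0 ≤ (q⁻¹) ^ 2 := by positivity
  have hEj : Real.exp (-(j : ℝ) / 5) ≤ 5 / 4 * E := exp_j hlam1 hr20 hjr'
  have hEv : Real.exp (A.v * bL) ≤ 3 := by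
    apply exp_v
    rw [show A.v = v from rfl, hIn.vq]
    exact c9
  have hE2 : Real.exp (2 * lam) ≤ 9 := exp_two hlam1
  have hEl : Real.exp (-(lam * (q⁻¹) ^ 2 / 20)) = E := by
    rw [hE, mul_div_right_comm]
  have hEr : Real.exp (-(q⁻¹) ^ 2) ≤ E := exp_r hlam1 hr20
  have hR0 : (A.R.card : ℝ) ≤ (q⁻¹) ^ D := hRc
  have hst : (∑ x ∈ A.R ∪ A.Q, (A.R.card : ℝ) * (4 * Real.exp (1 - A.l x * A.ε x))) +
      A.R.card * Real.exp (1 - A.lm * A.εm) + Real.exp (1 - A.lM * A.εM) ≤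
      30 * (q⁻¹) ^ (2 * D) * Real.exp (-(q⁻¹) ^ 2) :=
    start (Rk := Rk) (val := val) hIn hq1 D hRc hD
  have hU0 : 0 ≤ (∑ x ∈ A.R ∪ A.Q, (A.R.card : ℝ) * (4 * Real.exp (1 - A.l x * A.ε x))) +
      A.R.card * Real.exp (1 - A.lm * A.εm) + Real.exp (1 - A.lM * A.εM) := by positivity
  have hcQ : (A.Q.card : ℝ) ≤ (q⁻¹) ^ 2 := hIn.cQ
  have hRn : (0 : ℝ) ≤ A.R.card := Nat.cast_nonneg _
  exact fin_all _ _ _ _ _ _ _ _ _ _ _ hRn hU0 hcQ hR0 hst hEv hEj hE2 hEl hEr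
    hE0.le hr1 (by linarith) (Real.exp_pos _).le (Real.exp_pos _).le (Real.exp_pos _).le

end Pool.Agent.ATT.H76
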