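import Pool.Agent.ATT.Stmts

/-!
# Helper76, tank ATT: the numbers, part 1 (sums over sets of killed sites)
-/

set_option autoImplicit false

open scoped BigOperators NNReal

noncomputable section

namespace Pool.Agent.ATT.H76

/-- `∑ p² p'² ≤ a² b²` from the fourth powers -/
lemma sum_sq_mul {ι : Type} (S : Finset ι) (p p' : ι → ℝ) (a b : ℝ)
    (h1 : ∑ c ∈ S, p c ^ 4 ≤ a ^ 4) (h2 : ∑ c ∈ S, p' c ^ 4 ≤ b ^ 4) :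
    ∑ c ∈ S, (p c * p' c) ^ 2 ≤ (a * b) ^ 2 := by
  have h := Finset.sum_mul_sq_le_sq_mul_sq S (fun c => p c ^ 2) (fun c => p' c ^ 2)
  have h3 : (∑ c ∈ S, (p c * p' c) ^ 2) ^ 2 ≤ (a ^ 4) * (b ^ 4) := by
    calc (∑ c ∈ S, (p c * p' c) ^ 2) ^ 2 = (∑ c ∈ S, p c ^ 2 * p' c ^ 2) ^ 2 := by
          congr 1; exact Finset.sum_congr rfl fun c _ => by ring
      _ ≤ (∑ c ∈ S, (p c ^ 2) ^ 2) * ∑ c ∈ S, (p' c ^ 2) ^ 2 := h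
      _ = (∑ c ∈ S, p c ^ 4) * ∑ c ∈ S, p' c ^ 4 := by
          congr 1 <;> exact Finset.sum_congr rfl fun c _ => by ring
      _ ≤ (a ^ 4) * (b ^ 4) := by
          apply mul_le_mul h1 h2 (Finset.sum_nonneg fun c _ => by positivity) (by positivity)
  have h4 : 0 ≤ ∑ c ∈ S, (p c * p' c) ^ 2 := Finset.sum_nonneg fun c _ => by positivity
  have h5 : (∑ c ∈ S, (p c * p' c) ^ 2) ^ 2 ≤ ((a * b) ^ 2) ^ 2 := by
    calc _ ≤ (a ^ 4) * (b ^ 4) := h3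
      _ = _ := by ring
  exact le_of_sq_le_sq' h5 h4 (by positivity)
where
  le_of_sq_le_sq' {x y : ℝ} (h : x ^ 2 ≤ y ^ 2) (_ : 0 ≤ x) (hy : 0 ≤ y) : x ≤ y :=
    abs_le_of_sq_le_sq' h hy |>.2

/-- `∑ p ≤ n z` if `∑ p² ≤ z²`, `|S| ≤ n²` -/
lemma sum_le_of_sq {ι : Type} (S : Finset ι) (p : ι → ℝ) (n z : ℝ) (hn : 0 ≤ n) (hz : 0 ≤ z)
    (hS : (S.card : ℝ) ≤ n ^ 2) (h : ∑ c ∈ S, p c ^ 2 ≤ z ^ 2) : ∑ c ∈ S, p c ≤ n * z := by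
  have h1 := Finset.sum_mul_sq_le_sq_mul_sq S (fun _ => (1 : ℝ)) p
  have h2 : (∑ c ∈ S, p c) ^ 2 ≤ (n * z) ^ 2 := by
    calc (∑ c ∈ S, p c) ^ 2 = (∑ c ∈ S, 1 * p c) ^ 2 := by simp
      _ ≤ (∑ _c ∈ S, (1 : ℝ) ^ 2) * ∑ c ∈ S, p c ^ 2 := h1
      _ = (S.card : ℝ) * ∑ c ∈ S, p c ^ 2 := by simp
      _ ≤ n ^ 2 * z ^ 2 := mul_le_mul hS h (Finset.sum_nonneg fun c _ => by positivity)
          (by positivity)
      _ = (n * z) ^ 2 := by ring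
  exact (abs_le_of_sq_le_sq' h2 (by positivity)).2

/-- the cost of the kills of `S` for an entry -/
lemma cost_pair {ι : Type} (S : Finset ι) (p p' : ι → ℝ) (v l δ n a b : ℝ) (hv : 0 ≤ v)
    (hl : 0 ≤ l) (hδ : 0 ≤ δ) (hn : 0 ≤ n) (ha : 0 ≤ a) (hb : 0 ≤ b) (hS : (S.card : ℝ) ≤ n ^ 2)
    (h1 : ∑ c ∈ S, p c ^ 4 ≤ a ^ 4) (h2 : ∑ c ∈ S, p' c ^ 4 ≤ b ^ 4)
    (h3 : v * (δ * n * (l * a * b)) ≤ 1 / 2) (h4 : v * (l * a * b) ^ 2 ≤ 1) :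
    v * ∑ c ∈ S, cs l δ (p c) (p' c) ≤ 1 := by
  have e : ∑ c ∈ S, cs l δ (p c) (p' c) =
      l * δ * ∑ c ∈ S, p c * p' c + l ^ 2 / 2 * ∑ c ∈ S, (p c * p' c) ^ 2 := by
    rw [Finset.mul_sum, Finset.mul_sum, ← Finset.sum_add_distrib]
    rfl
  have h5 := sum_sq_mul S p p' a b h1 h2
  have h6 := sum_le_of_sq S (fun c => p c * p' c) n (a * b) hn (by positivity) hS h5
  rw [e]
  have h7 : l * δ * ∑ c ∈ S, p c * p' c ≤ l * δ * (n * (a * b)) :=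
    mul_le_mul_of_nonneg_left h6 (by positivity)
  have h8 : l ^ 2 / 2 * ∑ c ∈ S, (p c * p' c) ^ 2 ≤ l ^ 2 / 2 * (a * b) ^ 2 :=
    mul_le_mul_of_nonneg_left h5 (by positivity)
  have h9 := mul_le_mul_of_nonneg_left (add_le_add h7 h8) hv
  calc _ ≤ v * (l * δ * (n * (a * b)) + l ^ 2 / 2 * (a * b) ^ 2) := h9
    _ = v * (δ * n * (l * a * b)) + v * (l * a * b) ^ 2 / 2 := by ring
    _ ≤ 1 := by linarith

/-- the cost of the kills of `S` for a row; `n = m²` -/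
lemma cost_row {ι : Type} (S : Finset ι) (p : ι → ℝ) (v lm εm δ gb m a : ℝ) (hv : 0 ≤ v)
    (hl : 0 ≤ lm) (hε : 0 ≤ εm) (hδ : 0 ≤ δ) (hg : 0 ≤ gb) (hm : 0 ≤ m) (ha : 0 ≤ a)
    (hS : (S.card : ℝ) ≤ m ^ 4)
    (h1 : ∑ c ∈ S, p c ^ 4 ≤ a ^ 4)
    (h2 : v * (lm * (2 * δ * Real.sqrt (εm * gb)) * (m ^ 3 * a)) ≤ 1 / 3)
    (h3 : v * (lm * gb * (m * a) ^ 2) ≤ 1 / 3)
    (h4 : v * (2 * lm ^ 2 * (εm * gb) * (m * a) ^ 2) ≤ 1 / 3) :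
    v * ∑ c ∈ S, cm lm εm δ gb (p c) ≤ 1 := by
  have e : ∑ c ∈ S, cm lm εm δ gb (p c) =
      lm * (2 * δ * Real.sqrt (εm * gb)) * ∑ c ∈ S, p c + lm * gb * ∑ c ∈ S, p c ^ 2 +
        2 * lm ^ 2 * (εm * gb) * ∑ c ∈ S, p c ^ 2 := by
    rw [Finset.mul_sum, Finset.mul_sum, Finset.mul_sum, ← Finset.sum_add_distrib,
      ← Finset.sum_add_distrib]
    refine Finset.sum_congr rfl fun c _ => ?_
    unfold cm
    ring
  have hS' : (S.card : ℝ) ≤ (m ^ 2) ^ 2 := by rw [← pow_mul]; exact hS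
  have h5 : ∑ c ∈ S, p c ^ 2 ≤ (m * a) ^ 2 := by
    have := sum_le_of_sq S (fun c => p c ^ 2) (m ^ 2) (a ^ 2) (by positivity) (by positivity) hS'
      (by
        calc ∑ c ∈ S, (p c ^ 2) ^ 2 = ∑ c ∈ S, p c ^ 4 :=
              Finset.sum_congr rfl fun c _ => by ring
          _ ≤ a ^ 4 := h1
          _ = (a ^ 2) ^ 2 := by ring)
    calc _ ≤ m ^ 2 * a ^ 2 := this
      _ = _ := by ring
  have h6 : ∑ c ∈ S, p c ≤ m ^ 3 * a := by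
    have := sum_le_of_sq S p (m ^ 2) (m * a) (by positivity) (by positivity) hS' h5
    calc _ ≤ m ^ 2 * (m * a) := this
      _ = _ := by ring
  rw [e]
  have h7 := mul_le_mul_of_nonneg_left h6
    (show 0 ≤ v * (lm * (2 * δ * Real.sqrt (εm * gb))) by positivity)
  have h8 := mul_le_mul_of_nonneg_left h5 (show 0 ≤ v * (lm * gb) by positivity)
  have h9 := mul_le_mul_of_nonneg_left h5 (show 0 ≤ v * (2 * lm ^ 2 * (εm * gb)) by positivity)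
  nlinarith [h7, h8, h9]

/-- the fourth powers of `|G| + J` -/
lemma sum_four {ι : Type} (S : Finset ι) (f : ι → ℝ) (J k m a : ℝ)
    (hf : ∀ c ∈ S, 0 ≤ f c) (hJ : 0 ≤ J) (hL : ∑ c ∈ S, f c ^ 4 ≤ k ^ 4)
    (hS : (S.card : ℝ) ≤ m ^ 4) (hk : 0 ≤ k) (hm : 0 ≤ m) (ha : 2 * (k + m * J) ≤ a) :
    ∑ c ∈ S, (f c + J) ^ 4 ≤ a ^ 4 := by
  have h1 : ∀ c ∈ S, (f c + J) ^ 4 ≤ 8 * f c ^ 4 + 8 * J ^ 4 := by
    intro c hc
    have := hf c hc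
    nlinarith [sq_nonneg (f c ^ 2 - J ^ 2), sq_nonneg (f c - J), mul_nonneg this hJ,
      sq_nonneg (f c * (f c - J)), sq_nonneg (J * (f c - J)), sq_nonneg (f c ^ 2 - f c * J),
      sq_nonneg (J ^ 2 - f c * J), mul_nonneg (mul_nonneg this hJ) (sq_nonneg (f c - J))]
  have h2 : ∑ c ∈ S, (f c + J) ^ 4 ≤ 8 * k ^ 4 + 8 * (m ^ 4 * J ^ 4) := by
    calc ∑ c ∈ S, (f c + J) ^ 4 ≤ ∑ c ∈ S, (8 * f c ^ 4 + 8 * J ^ 4) := Finset.sum_le_sum h1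
      _ = 8 * ∑ c ∈ S, f c ^ 4 + (S.card : ℝ) * (8 * J ^ 4) := by
          rw [Finset.sum_add_distrib, ← Finset.mul_sum, Finset.sum_const, nsmul_eq_mul]
      _ ≤ _ := by
          have := mul_le_mul_of_nonneg_right hS (show (0 : ℝ) ≤ 8 * J ^ 4 by positivity)
          nlinarith
  have h3 : 0 ≤ m * J := by positivity
  have h4 : (2 * (k + m * J)) ^ 4 ≤ a ^ 4 := by gcongr
  have h5 : 8 * k ^ 4 + 8 * (m ^ 4 * J ^ 4) ≤ (2 * (k + m * J)) ^ 4 := by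
    have e : (2 * (k + m * J)) ^ 4 = 16 * (k ^ 4 + m ^ 4 * J ^ 4) + 16 * (4 * k ^ 3 * (m * J) +
        6 * k ^ 2 * (m * J) ^ 2 + 4 * k * (m * J) ^ 3) := by ring
    rw [e]
    have : 0 ≤ 4 * k ^ 3 * (m * J) + 6 * k ^ 2 * (m * J) ^ 2 + 4 * k * (m * J) ^ 3 := by
      positivity
    have h6 : 0 ≤ k ^ 4 + m ^ 4 * J ^ 4 := by positivity
    linarith
  linarith

end Pool.Agent.ATT.H76
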